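import Pool.Agent.helper84.NR.SpecW

/-!
Row `nrw:XCLW` (MP_133bfc_co): all faces at `x` are in one class, all faces at `y` are in one class.
-/

set_option autoImplicit false

namespace Pool.Agent.helper84.NR

open scoped Classical
open Finset

theorem XCLW_onV {V F : Type} (M : Cyc V F) (f : F) (e : Sym2 V) (v : V) (he : OnE M f e)
    (hv : v ∈ e) : OnV M f v := by
  obtain ⟨k, rfl⟩ := he
  rcases Sym2.mem_iff.mp hv with h | h
  · exact ⟨k, h.symm⟩
  · exact ⟨k + 1, h.symm⟩

theorem XCLW_class {V F : Type} (M : PMap V F) (U : Sym2 V → Prop) (z : V)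
    (hU : ∀ e : Sym2 V, z ∈ e → ¬ U e) :
    ∀ f g, OnV M.toCyc f z → OnV M.toCyc g z →
      Quot.mk (lk M U) f = Quot.mk (lk M U) g := by
  intro f g hf hg
  have h := M.link z {h | Quot.mk (lk M U) f = Quot.mk (lk M U) h} (by
    intro e he f' g' hf' hg' hS
    have h1 : Quot.mk (lk M U) f' = Quot.mk (lk M U) g' :=
      Quot.sound ⟨e, hU e he, hf', hg'⟩
    exact (show Quot.mk (lk M U) f = Quot.mk (lk M U) f' from hS).trans h1) f g hf hg rfl
  exact h

theorem XCLW : XCLW_stmt := by
  intro V F M x y J hT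
  constructor
  · apply XCLW_class
    intro e he hU
    rcases hU with h | ⟨B, hB, k, _, rfl⟩
    · exact h.1 he
    · apply hT.ne B
      refine ⟨?_, hT.jy B hB⟩
      rcases Sym2.mem_iff.mp he with h | h
      · exact ⟨st M y B + k, h.symm⟩
      · exact ⟨st M y B + (k + 1), h.symm⟩
  · apply XCLW_class
    intro e he hU
    rcases hU with h | ⟨B, hB, k, hk, rfl⟩
    · obtain ⟨_, A, hA, hAe⟩ := h
      exact hT.ne A ⟨hA, XCLW_onV M.toCyc A e y hAe he⟩
    · obtain ⟨⟨a, hak, ha⟩, b, hkb, hb⟩ := hk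
      have h1 := ha.1
      have h2 := hb.2.1
      have h0 := (h_WW0 V F M y B (hT.jy B hB)).1
      have hinj := (h_IDX V F M.toCyc B (st M y B)).1
      rcases Sym2.mem_iff.mp he with h | h
      · have h3 : M.bd B (st M y B + 0) = M.bd B (st M y B + k) := h0.trans h
        have h4 := hinj 0 k (by omega) (by omega) h3
        omega
      · have h3 : M.bd B (st M y B + 0) = M.bd B (st M y B + (k + 1)) := h0.trans h
        have h4 := hinj 0 (k + 1) (by omega) (by omega) h3
        omega

end Pool.Agent.helper84.NR
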